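import Pool.Agent.Helper56.RZ.GoalsA

/-!
# Packet RZ-GTA: algebra of the graph transform
-/

set_option autoImplicit false

open Set Filter Topology MeasureTheory

namespace Pool.Agent.Helper82.RZ

open Pool.Agent.Helper56.RZ

/-- the algebra in a ring -/
theorem alg {M : Type*} [Ring M] {F Fy Gy Fz Gz D D' T Ty A B s e i : M}
    (hFF : F * F = F) (hT : F * T * F = F) (hsF : s * F = s) (hDD : D' * D = T)
    (hFyy : Fy * Fy = Fy) (hGyy : Gy * Gy = Gy) (hTy : Fy + Gy = Ty) (hTyD : Ty * D = D)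
    (hBA : B * A = Ty) (hAF : A * Fy = Fz * A) (hAG : A * Gy = Gz * A) (hBF : B * Fz = Fy * B)
    (he : e = F * D' * Gy * D * F - F * D' * Fy * D * s) (hi : i * (1 - e) = 1) :
    Gz * (A * (Gy * D * (F + s)) * (i * (F * D' * Fy)) * B) * Fz =
      A * (Gy * D * (F + s)) * (i * (F * D' * Fy)) * B ∧
    A * D * (F + s) =
      (Fz + A * (Gy * D * (F + s)) * (i * (F * D' * Fy)) * B) * (A * D * (F + s)) := by
  have h0 : F * D' * Fy * D * F + F * D' * Gy * D * F = F := by
    calc F * D' * Fy * D * F + F * D' * Gy * D * F = F * D' * ((Fy + Gy) * D) * F := by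
          noncomm_ring
      _ = F * (D' * D) * F := by rw [hTy, hTyD]; noncomm_ring
      _ = F := by rw [hDD, hT]
  have h1 : F * D' * Fy * (D * (F + s)) = F - e := by
    have : F * D' * Fy * (D * (F + s)) = F * D' * Fy * D * F + F * D' * Fy * D * s := by
      noncomm_ring
    rw [this, he, eq_sub_of_add_eq h0]
    abel
  have h2 : e * F = e := by
    rw [he, sub_mul, mul_assoc _ F F, hFF, mul_assoc _ s F, hsF]
  have h3 : i * (F * D' * Fy) * (D * (F + s)) = F := by
    rw [mul_assoc, h1]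
    have : F - e = (1 - e) * F := by rw [sub_mul, one_mul, h2]
    rw [this, ← mul_assoc, hi, one_mul]
  have h4 : Gy * D * (F + s) * F = Gy * D * (F + s) := by
    rw [mul_assoc, add_mul, hFF, hsF]
  have h5 : i * (F * D' * Fy) * Fy = i * (F * D' * Fy) := by
    rw [mul_assoc, mul_assoc _ Fy Fy, hFyy]
  have h6 : Gz * (A * (Gy * D * (F + s))) = A * (Gy * D * (F + s)) := by
    rw [← mul_assoc, ← hAG, mul_assoc A Gy, ← mul_assoc Gy (Gy * D), ← mul_assoc Gy Gy, hGyy]
  refine ⟨?_, ?_⟩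
  · calc Gz * (A * (Gy * D * (F + s)) * (i * (F * D' * Fy)) * B) * Fz
        = Gz * (A * (Gy * D * (F + s))) * (i * (F * D' * Fy)) * (B * Fz) := by
          simp only [mul_assoc]
      _ = A * (Gy * D * (F + s)) * (i * (F * D' * Fy) * Fy) * B := by
          rw [h6, hBF]; simp only [mul_assoc]
      _ = _ := by rw [h5]
  · have h7 : A * (Gy * D * (F + s)) * (i * (F * D' * Fy)) * B * (A * D * (F + s)) =
        A * (Gy * D * (F + s)) := by
      calc A * (Gy * D * (F + s)) * (i * (F * D' * Fy)) * B * (A * D * (F + s))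
          = A * (Gy * D * (F + s)) * (i * (F * D' * Fy)) * ((B * A) * D * (F + s)) := by
            simp only [mul_assoc]
        _ = A * (Gy * D * (F + s)) * (i * (F * D' * Fy) * (D * (F + s))) := by
            rw [hBA, hTyD]; simp only [mul_assoc]
        _ = A * (Gy * D * (F + s) * F) := by rw [h3, mul_assoc]
        _ = _ := by rw [h4]
    rw [add_mul, h7]
    have h8 : Fz * (A * D * (F + s)) = A * (Fy * D * (F + s)) := by
      rw [← mul_assoc, ← mul_assoc, ← hAF]; simp only [mul_assoc]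
    rw [h8, ← mul_add]
    have h9 : Fy * D * (F + s) + Gy * D * (F + s) = (Fy + Gy) * D * (F + s) := by
      rw [add_mul, add_mul]
    rw [h9, hTy, hTyD, mul_assoc]

/-- GTA. -/
theorem gta : StmtGTA := by
  intro X _ _ K C H F G hP hHT x s hs hE
  have hTx : C.T x = F x + G x := (hP.sum x).symm
  have hFT : ∀ w, F w * C.T w = F w := fun w => by
    rw [← hP.sum w, mul_add, hP.FF, hP.FG, add_zero]
  have hTF : ∀ w, C.T w * F w = F w := fun w => by
    rw [← hP.sum w, add_mul, hP.FF, hP.GF, add_zero]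
  have hGT : ∀ w, G w * C.T w = G w := fun w => by
    rw [← hP.sum w, mul_add, hP.GG, hP.GF, zero_add]
  have hsF : s * F x = s := by
    nth_rewrite 1 [← hs]
    rw [mul_assoc, hP.FF, hs]
  have hFs : F x * s = 0 := by
    rw [← hs, ← mul_assoc, ← mul_assoc, hP.FG, zero_mul, zero_mul]
  have hGs : G x * s = s := by
    nth_rewrite 1 [← hs]
    rw [← mul_assoc, ← mul_assoc, hP.GG, hs]
  have hi : Ring.inverse (1 - gtE H F G x s) * (1 - gtE H F G x s) = 1 :=
    Ring.inverse_mul_cancel _ (isUnit_one_sub_of_norm_lt_one hE)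
  have hBF : C.B (C.f (H.f x)) * F (C.f (H.f x)) = F (H.f x) * C.B (C.f (H.f x)) := by
    have h1 : F (H.f x) = C.B (C.f (H.f x)) * F (C.f (H.f x)) * C.A (H.f x) := by
      rw [mul_assoc, ← hP.AF, ← mul_assoc, C.BA, hTF]
    rw [h1, mul_assoc _ (C.A (H.f x)), C.AB, mul_assoc, hFT]
  have key := alg (F := F x) (Fy := F (H.f x)) (Gy := G (H.f x)) (Fz := F (C.f (H.f x)))
    (Gz := G (C.f (H.f x))) (D := H.A x) (D' := H.B (H.f x)) (T := C.T x) (Ty := C.T (H.f x))
    (A := C.A (H.f x)) (B := C.B (C.f (H.f x))) (s := s) (e := gtE H F G x s)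
    (i := Ring.inverse (1 - gtE H F G x s)) (hP.FF x) (by rw [hFT, hP.FF]) hsF
    (by rw [H.BA, hHT]) (hP.FF _) (hP.GG _) (hP.sum _) (by rw [← hHT, H.TA]) (C.BA _)
    (hP.AF _) (hP.AG _) hBF rfl hi
  refine ⟨key.1, key.2, ?_⟩
  rintro ⟨h1, h2⟩
  have hB : H.B x = C.T x := by
    have h3 := H.BA x
    rw [h1, h2, H.BT, hHT] at h3
    exact h3
  have hA : H.A x = C.T x := by rw [h2, hHT]
  have hE0 : gtE H F G x s = 0 := by
    unfold gtE
    rw [h1, hB, hA, hFT, hP.FG, hP.FF, hFT, hFs]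
    simp
  have hR : gtR H F G x s = F x := by
    unfold gtR
    rw [hE0, h1, hB, hFT, hP.FF, sub_zero, Ring.inverse_one, one_mul]
  unfold gt
  rw [hR, h1, hA, hGT, mul_add, hP.GF, hGs, zero_add, mul_assoc (C.A x) s, hsF]

end Pool.Agent.Helper82.RZ
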